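import Pool.Agent.H72.Hash.Poly4

/-!
# 3SUM: tables of linear forms, and tests of three numbers

The input is a list of `n` distinct integers; is one of them the sum of two others?

The computations are decision trees (`Alg`) with three kinds of steps.

* A test looks at three numbers `a`, `b`, `c` of the input and gets to know the signs of the values
  of finitely many polynomials in three variables, of any degree and with arbitrary real
  coefficients, at `(a, b, c)`. So a test may be an arbitrary semialgebraic predicate of three of the
  numbers. Tests which look at only one or two numbers (sorting) are free. We count the triples of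
  places which are looked at, further tests of the same triple are free.
* The computation may, at any time and without cost, get to know the residues of all numbers modulo
  any positive integer (hashing modulo primes).
* The computation may compute the value of an affine form `x_1 a_1 + ... + x_n a_n + b` of all the
  `n` numbers, with arbitrary coefficients in a real vector space (so in one step it may compute any
  number of ordinary affine forms, with arbitrary real coefficients), put this value into a table, and
  get to know all earlier values in the table which are equal to it (a hash table; a generic group).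
  We count the values.

If there were no table this would be the library's `TernaryTests`, with the bound `n ^ 2 / 16` for the
number of the triples. With the table, `n ^ 2 + n` values suffice (all `x_i + x_j`, all `x_k`), without
tests. As `M` values have `M ^ 2 / 2` differences, and there are `n ^ 3 / 2` possible equations
`x_i + x_j = x_k`, mere counting only gives `M ≥ n ^ (3 / 2)`. If the table also compared the values
(`<`) then `O(n log n)` values would suffice (`MP_13bec0_lc.OptimalDecisionTrees`).

We show that one needs `T` triples and `M` values with `T + 12 M (log₂ n) ^ 2 ≥ c n ^ 2`:

1. for random computations with two-sided error and integers of any size,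
2. for random computations and integers of at most `6000 q K ^ 4 n ^ 7`, if the tests are signs of
   integral combinations of three numbers with coefficients of absolute value at most `K`, and the
   moduli divide `q` (the forms in the table are arbitrary),
3. for nondeterministic computations which prove that there is no solution.

Proof. *Combinatorics.* Let `U` be a finite set of vectors. Some `u ∈ U` has at most `log₂ |U|`
coordinates `i` such that another vector of `U` differs from `u` in `i` only: if two vectors of `U`
differ in the coordinate `i`, take the vectors with one of the two values at `i`, at most half of `U`,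
and use induction. Removing such vectors one after the other, one assigns to each `u ∈ U` at most
`log₂ |U|` coordinates such that, whenever `u`, `v` differ in `i` only, `i` is assigned to `u` or `v`.
We use this for the restrictions of the forms in the table to three disjoint blocks of variables. If
the difference of `f` and `g` is a multiple of `x_i + x_j - x_k`, with `i`, `j`, `k` in the three
blocks, then `i` is assigned to `f` or `g`, and so are `j` and `k`; so two of them are assigned to the
same form. If two of `i`, `j`, `k` determine the third, this gives at most `3 M (log₂ M) ^ 2` triples
`(i, j, k)` for which some difference of `M` forms is a multiple of `x_i + x_j - x_k`.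

*The inputs.* As in `TernaryTests` (library, `K4H88.Ter`) let `α ≫ β ≫ δ ≫ ε` and consider the numbers
`α + i δ + 4 (i - i₀) ^ 2 ε`, `β + j δ + 4 (j - j₀) ^ 2 ε`, `α + β + k δ + (k - i₀ - j₀) ^ 2 ε`, with the
only solution `(i₀, j₀, i₀ + j₀)`, and a similar list without solution; tests of three places other
than those of the solution do not distinguish them. We add a perturbation which is much smaller than
`ε` to all numbers, but preserve the solution. Three places have linearly independent coefficients
of `α`, `β`, `δ`, `ε`, so the perturbation of the three numbers is a change of the parameters, and the
tests do not notice it. If the perturbation is generic (in 2.: random), then two different forms in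
the table have different values, unless their difference is a multiple of `x_i + x_j - x_k` for the
solution. So the solutions which are noticed are those of the triples which are looked at, and those
which are counted above.
-/

set_option autoImplicit false

namespace Pool.Agent.Results.MP_13bec0_lc.HashedForms

open Finset Pool.Agent.K4H88.Ter Pool.Agent.H72.Hash

open Classical in
/-- (1) Let `F`, `μ` be a random computation for lists of `n ≥ 2` integers, whose error probability
is at most `η` for each list of distinct integers with at most one solution. Then there is a list of
distinct integers without a solution for which the expected cost (the number of the triples which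
are looked at, plus `12 (log₂ n) ^ 2` times the number of the values which are put into the table) is
at least `(1 - 2 η) (n - 2) ^ 2 / 16`.

(2) If the tests are signs of integral combinations of three numbers, with coefficients of absolute
value at most `K`, and the residues are those modulo divisors of `q`, then the same is true, with the
bound `(1 - 2 η - 1 / 50) (n - 2) ^ 2 / 17`, if only positive integers up to `N` are allowed as
inputs, `N ≥ 6000 q K ^ 4 n ^ 7`.

(3) Let a finite family of computations be such that a list of distinct integers with at most one
solution has no solution if and only if one of the computations gives the answer `false` for it. Then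
there is such a list without a solution for which each computation with the answer `false` has at
least the cost `(n - 2) ^ 2 / 16`. -/
theorem result :
    (∀ n : ℕ, 2 ≤ n → ∀ (V : Type) [AddCommGroup V] [Module ℝ V] (Ω : Type) [Fintype Ω]
      (μ : Ω → ℝ), (∀ ω, 0 ≤ μ ω) → ∑ ω, μ ω = 1 → ∀ (F : Ω → Alg n V 0) (η : ℝ),
      (∀ x : Fin n → ℤ, Function.Injective x → AtMostOne x →
        ∑ ω ∈ univ.filter (fun ω => (F ω).eval ![] x ≠ decide (HasSum3 x)), μ ω ≤ η) →
      ∃ x : Fin n → ℤ, Function.Injective x ∧ ¬ HasSum3 x ∧
        (1 - 2 * η) * ((n : ℝ) - 2) ^ 2 ≤ 16 * ∑ ω, μ ω * cost (F ω) x) ∧
    (∀ n K q N : ℕ, 2 ≤ n → 1 ≤ K → 1 ≤ q → 6000 * q * K ^ 4 * n ^ 7 ≤ N →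
      ∀ (V : Type) [AddCommGroup V] [Module ℝ V] (Ω : Type) [Fintype Ω]
      (μ : Ω → ℝ), (∀ ω, 0 ≤ μ ω) → ∑ ω, μ ω = 1 → ∀ (F : Ω → Alg n V 0),
      (∀ ω, (F ω).Small K q) → ∀ η : ℝ,
      (∀ x : Fin n → ℤ, Function.Injective x → (∀ u, 0 < x u ∧ x u ≤ N) → AtMostOne x →
        ∑ ω ∈ univ.filter (fun ω => (F ω).eval ![] x ≠ decide (HasSum3 x)), μ ω ≤ η) →
      ∃ x : Fin n → ℤ, Function.Injective x ∧ (∀ u, 0 < x u ∧ x u ≤ N) ∧ ¬ HasSum3 x ∧
        (1 - 2 * η - 1 / 50) * ((n : ℝ) - 2) ^ 2 ≤ 17 * ∑ ω, μ ω * cost (F ω) x) ∧
    (∀ n : ℕ, 2 ≤ n → ∀ (V : Type) [AddCommGroup V] [Module ℝ V] (Ω : Type) [Fintype Ω]
      (F : Ω → Alg n V 0),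
      (∀ x : Fin n → ℤ, Function.Injective x → AtMostOne x →
        ((∃ ω, (F ω).eval ![] x = false) ↔ ¬ HasSum3 x)) →
      ∃ x : Fin n → ℤ, Function.Injective x ∧ ¬ HasSum3 x ∧
        ∀ ω, (F ω).eval ![] x = false → ((n : ℝ) - 2) ^ 2 ≤ 16 * cost (F ω) x) :=
  ⟨fun _ hn _ _ _ _ _ μ hμ hμ1 F η he => random_bound' hn μ hμ hμ1 F η he,
    fun _ _ _ _ hn hK hq hN _ _ _ _ _ μ hμ hμ1 F hF η he =>
      poly_bound hn hK hq hN μ hμ hμ1 F hF η he,
    fun _ hn _ _ _ _ _ F hF => cert_bound' hn F hF⟩

end Pool.Agent.Results.MP_13bec0_lc.HashedForms
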