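import Mathlib
import Pool.Agent.H81.TS.Three

/-!
# Certificates of linear size for 3SUM

Definitions (`Pool/Agent/H81/TS/Defs.lean`): `value a x = ∑ i, a i * x i` for an integer form `a` and a
list `x` of `n` real numbers; `HasSum3 x`: there are three different indices with `x i + x j = x k`;
`sumForms n`: the forms `x i + x j - x k`, `i`, `j`, `k` different.

`Certifies C x`: every list for which the forms in `C` have the same signs as for `x` has a solution
if and only if `x` has a solution. So the nondeterministic (certificate) complexity of 3SUM in the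
model of linear decision trees is the least number of elements of such a set `C`.

Part 1: for every list `x` there is a set `C` of at most `36 n + 6` differences of two of the
forms `x i + x j - x k` (or zero), so comparisons with at most six terms, whose signs imply the signs of
all `n (n - 1) (n - 2)` forms for `x`, in particular whether there is a solution.
Part 2: for every list without a solution (`n ≥ 3`) every certificate, with arbitrary
integer forms, has at least `n` elements. So the certificate complexity is of order `n` for
every single input without a solution, while deterministic trees have depth of order `n log n`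
(`OptimalDecisionTrees`).
-/

set_option autoImplicit false

namespace Pool.Agent.Results.MP_13bec0_lc.LinearCertificates

open Pool.Agent.H81.TS

/-- the signs of the forms in `C` at `x` determine whether there is a solution -/
def Certifies {n : ℕ} (C : Finset (Fin n → ℤ)) (x : Fin n → ℝ) : Prop :=
  ∀ y : Fin n → ℝ, (∀ c ∈ C, SignType.sign (value c y) = SignType.sign (value c x)) →
    (HasSum3 y ↔ HasSum3 x)

theorem short {n : ℕ} (hn : 3 ≤ n) (C : Finset (Fin n → ℤ)) (hC : C.card < n) (x : Fin n → ℝ) :
    ∃ y : Fin n → ℝ, (∀ c ∈ C, value c y = value c x) ∧ HasSum3 y := by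
  classical
  let L : (Fin n → ℝ) →ₗ[ℝ] (C → ℝ) :=
    { toFun := fun y c => value c.1 y
      map_add' := by
        intro y z
        funext c
        have := value_combine c.1 y z 1 1
        simp only [one_mul] at this
        exact this
      map_smul' := by
        intro r y
        funext c
        have := value_combine c.1 y y r 0
        simp only [zero_mul, add_zero] at this
        exact this }
  have hker : LinearMap.ker L ≠ ⊥ := by
    apply LinearMap.ker_ne_bot_of_finrank_lt
    rw [Module.finrank_fintype_fun_eq_card, Module.finrank_fintype_fun_eq_card, Fintype.card_coe,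
      Fintype.card_fin]
    exact hC
  obtain ⟨κ, hκ, hκ0⟩ := Submodule.exists_mem_ne_zero_of_ne_bot hker
  have hval : ∀ c ∈ C, value c κ = 0 := by
    intro c hc
    have := congrFun (LinearMap.mem_ker.1 hκ) ⟨c, hc⟩
    exact this
  obtain ⟨l, hl⟩ : ∃ l, κ l ≠ 0 := by
    by_contra hcon
    push Not at hcon
    exact hκ0 (funext hcon)
  obtain ⟨p, hp⟩ : ∃ p : Fin n, p ≠ l := by
    by_contra hcon
    push Not at hcon
    have h1 := hcon ⟨0, by omega⟩
    have h2 := hcon ⟨1, by omega⟩
    rw [← h2, Fin.mk.injEq] at h1
    omega
  obtain ⟨q, hq, hqp⟩ : ∃ q : Fin n, q ≠ l ∧ q ≠ p := by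
    by_contra hcon
    push Not at hcon
    have : (Finset.univ : Finset (Fin n)) ⊆ {l, p} := by
      intro a _
      by_cases ha : a = l
      · simp [ha]
      · simp [hcon a ha]
    have h1 := Finset.card_le_card this
    have h2 := Finset.card_le_two (a := l) (b := p)
    rw [Finset.card_univ, Fintype.card_fin] at h1
    omega
  obtain ⟨j, k, h1, h2, h3, h4⟩ : ∃ j k : Fin n, l ≠ j ∧ l ≠ k ∧ j ≠ k ∧ κ l + κ j - κ k ≠ 0 := by
    by_cases h : κ l + κ p - κ q = 0
    · refine ⟨q, p, hq.symm, hp.symm, hqp, fun h' => hl ?_⟩
      linarith
    · exact ⟨p, q, hp.symm, hq.symm, hqp.symm, h⟩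
  set D := κ l + κ j - κ k with hD
  set r := (x l + x j - x k) / D with hr
  refine ⟨fun i => 1 * x i + (-r) * κ i, ?_, l, j, k, h1, h2, h3, ?_⟩
  · intro c hc
    rw [value_combine, hval c hc]
    ring
  · have h5 : r * D = x l + x j - x k := by
      rw [hr]
      exact div_mul_cancel₀ _ h4
    rw [hD] at h5
    linarith

/-- 1. Small certificates. 2. Every certificate for a list without solution has at least `n`
elements. -/
theorem result :
    (∀ (n : ℕ) (x : Fin n → ℝ), ∃ C : Finset (Fin n → ℤ), C.card ≤ 36 * n + 6 ∧
      (∀ c ∈ C, ∃ h ∈ insert 0 (sumForms n), ∃ h' ∈ insert 0 (sumForms n), c = h - h') ∧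
      (∀ y : Fin n → ℝ, (∀ c ∈ C, SignType.sign (value c y) = SignType.sign (value c x)) →
        ∀ h ∈ sumForms n, SignType.sign (value h y) = SignType.sign (value h x)) ∧
      Certifies C x) ∧
    (∀ (n : ℕ) (x : Fin n → ℝ) (C : Finset (Fin n → ℤ)), 3 ≤ n → ¬ HasSum3 x → Certifies C x →
      n ≤ C.card) := by
  constructor
  · intro n x
    obtain ⟨C, h1, h2, h3⟩ := cert_exists (sumForms n) 3 6 (by norm_num) (by norm_num)
      sumForms_norm x
    refine ⟨C, by omega, h2, h3, ?_⟩
    intro y hy
    rw [hasSum3_iff, hasSum3_iff]
    constructor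
    · rintro ⟨h, hh, h0⟩
      exact ⟨h, hh, by rw [← h3 y hy h hh, h0]⟩
    · rintro ⟨h, hh, h0⟩
      exact ⟨h, hh, by rw [h3 y hy h hh, h0]⟩
  · intro n x C hn hx hC
    by_contra hcon
    rw [not_le] at hcon
    obtain ⟨y, hy, hsum⟩ := short hn C hcon x
    exact hx ((hC y fun c hc => by rw [hy c hc]).1 hsum)

end Pool.Agent.Results.MP_13bec0_lc.LinearCertificates
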