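import Mathlib
import Pool.Agent.H81.TS.Three

/-!
# Linear decision trees of optimal depth `O (n log n)` for 3SUM

Definitions (`Pool/Agent/H81/TS/Defs.lean`):

* `value a x = ∑ i, a i * x i` for an integer form `a` and a list `x` of `n` real numbers;
* `Tree n α`: linear decision trees. A node tests the sign (negative, zero, positive) of a form; the
  leaves contain answers in `α`. `run x t` is the answer of `t` on the input `x`, `depth t` the
  largest number of tests on a branch, `tests t` the set of the forms at the nodes;
* `HasSum3 x`: there are three different indices with `x i + x j = x k`;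
* `sumForms n`: the forms `x i + x j - x k`, `i`, `j`, `k` different.

Part 1: the signs of all forms of a finite family `H` of integer forms with absolute coefficient
sums at most `w` can be found with `268 (b n + 1) log₂ (|H| + 1)` comparisons of two elements of
`H ∪ {0}`, where `16 w ≤ 2 ^ b`. Part 2: 3SUM (for arbitrary lists of real numbers) needs at most
`6000 n log₂ n` such comparisons, that is, signs of forms with at most six terms. Part 3: every linear
decision tree which solves 3SUM for all sets of `n = 3 m` integers in `[- n ^ 3, n ^ 3]`, the inputs of
the problem, has depth at least `m log₃ m`, so part 2 is sharp up to a constant factor.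

Kane, Lovett and Moran proved the bound `O (n (log n) ^ 2)` for part 2 and, for part 1, a bound with a
further factor `log n`.

Proof. (a) For every input `x` every set of forms contains a subset `T` with at most `6 (b n + 1)`
elements such that the comparisons of elements of `T ∪ {0}` at `x` imply the signs of all forms of
the set (greedy choice in the order of `|h x|`; long chains are excluded since among `2 (b n + 1)`
differences of forms two subsets have the same sum; the number of possible sums is estimated with a
generating function). (b) So `T` compresses each sample from which only few signs follow, and the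
proportion of such samples of `m = O (b n)` forms is at most `2 ^ (- m)`. (c) A sample is sorted by
insertion with weighted binary search, where the weights are the numbers of cells of the
arrangement of all comparisons. The number of comparisons is at most `2 m` and twice the decrease of
the logarithm of the number of cells. If few signs follow then this logarithm decreases by at
least `m` for a suitable sample, otherwise an eighth of the open signs is found. So the total number
is `O (b n log |H|)`.
-/

set_option autoImplicit false

namespace Pool.Agent.Results.MP_13bec0_lc.OptimalDecisionTrees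

open Pool.Agent.H81.TS

/-- 1. Comparison trees for families of integer forms. 2. Trees of depth `O (n log n)` for 3SUM.
3. The lower bound for the inputs of the problem. -/
theorem result :
    (∀ (n w b : ℕ) (H : Finset (Fin n → ℤ)), 0 < w → 16 * w ≤ 2 ^ b →
      (∀ h ∈ H, ∑ j, (h j).natAbs ≤ w) →
      ∃ t : Tree n ((Fin n → ℤ) → SignType),
        (∀ c ∈ t.tests, ∃ h ∈ insert 0 H, ∃ h' ∈ insert 0 H, c = h - h') ∧
        (t.depth : ℝ) ≤ 268 * (b * n + 1) * Real.logb 2 (H.card + 1) ∧
        ∀ x : Fin n → ℝ, ∀ h ∈ H, t.run x h = SignType.sign (value h x)) ∧
    (∀ n : ℕ, 2 ≤ n → ∃ t : Tree n Bool,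
      (∀ c ∈ t.tests, ∃ h ∈ insert 0 (sumForms n), ∃ h' ∈ insert 0 (sumForms n), c = h - h') ∧
      (t.depth : ℝ) ≤ 6000 * n * Real.logb 2 n ∧
      ∀ x : Fin n → ℝ, t.run x = true ↔ HasSum3 x) ∧
    (∀ (m : ℕ) (t : Tree (3 * m) Bool),
      (∀ x : Fin (3 * m) → ℤ, Function.Injective x → (∀ i, |x i| ≤ ((3 * m : ℕ) : ℤ) ^ 3) →
        (t.run (fun i => (x i : ℝ)) = true ↔ HasSum3 fun i => (x i : ℝ))) →
      m ^ m ≤ 3 ^ t.depth) :=
  ⟨fun _ w b H hw0 hb hw => tree_exists H w b hw0 hb hw, fun _ hn => upper hn,
    fun _ t ht => lower t ht⟩

end Pool.Agent.Results.MP_13bec0_lc.OptimalDecisionTrees
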