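import Pool.Agent.H72.TR.Fin3
import Pool.Agent.H72.TR.Fin
import Pool.Agent.H72.TR.Prob0
import Pool.Agent.H72.TR.Tree
import Pool.Agent.H72.TR.Num
import Pool.Agent.H72.TR.Upper
import Pool.Agent.H72.TR.Count
import Pool.Agent.H72.TR.Lower3
import Pool.Agent.H81.TR.Second3
import Pool.Agent.H83.TR.Inst3
import Pool.Agent.H85.TR.Hits3
import Pool.Agent.H23.TR.Blocks
import Pool.Agent.H81.TR.Num3
import Pool.Agent.H72.TR.Three
import Pool.Agent.H72.TR.Inv
import Pool.Agent.H72.TR.Rows2
import Pool.Agent.H76.TR.Minimax
import Pool.Agent.H83.TR.Learn
import Pool.Agent.H11.TR.Pats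
import Pool.Agent.H85.TR.Tree3
import Pool.Agent.H81.TR.Rows1
import Pool.Agent.H72.TR.Five
import Pool.Agent.H83.TR.Learn5
import Pool.Agent.H85.TR.Tree5
import Pool.Agent.H72.TR.Rows5c
import Pool.Agent.H81.TR.Rows5
import Pool.Agent.H11.TR.Chains

/-!
# 3SUM in two, three and five rounds

The input is a list of `n` distinct integers; is one of them the sum of two others?

The computations are linear decision trees with few rounds (`RTree`, library). In every round the
signs of arbitrarily many affine functions of the numbers are determined; these functions may depend,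
in an arbitrary way, on the outcomes of the previous rounds, but not on each other's. The cost is the
total number of tests. Here we consider tests with at most three terms, `± x_p ± x_q ± x_s + b` with an
arbitrary real number `b`.

For any number of rounds such trees need at least order `n ^ 2` tests (Erickson; `TernaryTests`,
library). In one round one needs order `n ^ 3` tests, one for each triple. We show that order
`n ^ (9 / 4)` is right for two rounds, that order `n ^ 2 log n` suffices for three rounds, and that
order `n ^ 2` is right for five rounds: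

1. In `r` rounds, expected `34 r n ^ (2 + 2 / (3 ^ r - 1))` tests suffice, for random trees without
   error, and all lists of distinct integers; the tests are `x_i + x_j - x_k` and `x_i - x_j`. For
   two rounds this is `68 n ^ (9 / 4)`.
2. In three rounds, expected `20 n ^ 2 (⌊log₂ n⌋ + 1)` such tests suffice.
3. In five rounds, expected `100000 n ^ 2` such tests suffice.
4. Two rounds need order `n ^ (9 / 4)` tests: if a random tree with two rounds and tests of at most
   three terms errs with probability at most `η` for each list, and makes expected at most `T` tests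
   for each list without a solution, then `(1 - 2 η) n ^ (9 / 4) ≤ 300 T`. This is true even if the
   lists are sorted, and, for tests without constants `b`, if the numbers are in `[1, 2000 n ^ 2]`.
   If `|b| < S` we need `[1, 2000 S n ^ 2]`.
5. For arbitrary constants `b`, and sorted lists of integers of any size.

For arbitrary linear tests of all `n` numbers only the lower bound of order `n ^ (1 + 2 / r)` is known
(`FewRounds`, library), which is `n ^ 2` for two rounds.

Proof. *Upper bound (1).* Put each of the `n ^ 3` tests `x_i + x_j - x_k` into a random round, into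
round `l` with probability `q_l`. In the first round we also compare all numbers. A test is omitted if
its outcome follows from the order of the numbers and the outcome of an earlier test
`x_i' + x_j' - x_k'`: if `x_i ≤ x_i'`, `x_j ≤ x_j'`, `x_k ≥ x_k'` and `x_i' + x_j' < x_k'` then
`x_i + x_j < x_k`, and similarly for `>`. For at most order `n ^ 2 K` of the tests there are fewer than
`K ^ 3` others which determine them in this way, as the surface `x_i + x_j = x_k` has `n ^ 2` places. If
the probability of the rounds before `l` is `P` then one expects that at most order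
`n ^ 2 P ^ (- 1 / 3)` tests are not determined by the earlier rounds, and that `q_l` times as many of
them are in the round `l`.

*Three rounds (2).* The point is that the signs of all `n ^ 3` forms `x_i + x_j - x_k` have only entropy
`O(n log n)`, as an arrangement of `n ^ 3` hyperplanes in dimension `n` has only `n ^ O(n)` faces. By the
minimax theorem we may assume that the list has a known distribution. Choose `n ^ 2` of the tests
greedily, such that each of them decreases the entropy as much as possible; in the end the conditional
entropy of each other test is `O(log n / n)`, so if we guess a list according to the conditional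
distribution then expected `O(n ^ 2 log n)` of the `n ^ 3` guessed signs are wrong. These `n ^ 2` tests,
and the comparisons, are the first round. In the second round we test, for each pair `i`, `j`, the
numbers `x_k` whose distances to the guessed place of `x_i + x_j` in the sorted list are the powers of
two. In the third round we test everything which is not determined now; for each pair this is at
most one plus twice the distance of the guessed place and the true place of `x_i + x_j`, which is the
number of the wrong guesses.

*Five rounds (3).* In the second round, choose again `n ^ 2` tests greedily, for the conditional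
distribution after the first round, such that all other tests have conditional entropy
`O(log n / n)`. Now the guess is right for all but `O(n ^ 2 / log ^ 2 n)` of the pairs `i`, `j`: after
the first round, call a test heavy if its outcome has probability between `1 / log ^ 2 n` and
`1 - 1 / log ^ 2 n`; there are only `n ^ 2 log ^ O(1) n` heavy tests, and the probability that some of
them is guessed wrong after the second round is small for most of the pairs; the other tests of the
pair are guessed wrong with probability `O(1 / log ^ 2 n)` altogether, because they are nested. In the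
third round we test the places next to the guessed place for each pair. If the guess is wrong, we test
in the fourth round a grid of `O(log ^ 2 n)` places around the guess, such that the gaps of the grid
at distance `δ` are at most `δ / log n`. In the fifth round we test what is not determined now; since the
expected sum of the distances `δ` is `O(n ^ 2 log n)` this is `O(n ^ 2)`.

*Lower bound.* Let `U` be a monotone function of the places with values of order `n / w`, which is
constant on blocks of length `w`, where `w` is of order `n ^ (1 / 4)`. Let `x_p = K₁ (U_p + 1) - 3 K₂ + p`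
with `K₁ ≫ K₂ ≫ n`. If `U_k ≠ U_i + U_j + 1` then the sign of `x_i + x_j - x_k` is determined by `K₁`; if
`U_k = U_i + U_j + 1` it is negative because of `- 3 K₂`. There are order `(n / w) ^ 2` boxes, which
consist of three blocks `A`, `B`, `C` with `U_C = U_A + U_B + 1`, and `w ^ 3` triples of places. For a triple
`(a, b, c)` of such a box add `K₂` to the numbers at the places `p ≥ a` of `A`, and at the places
`p ≥ b` of `B`, and subtract `K₂ - (a + b - c)` from those at the places `p ≤ c` of `C`. Then
`x_a + x_b = x_c` is the only solution, and only the signs of tests of three terms in this box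
change, as two of the three changes do not suffice. So if the first round does not test any triple
of the box then the second round has to test all its `w ^ 3` triples. The number of tests of the first
round is small compared to `n ^ 3 / w ^ 3`; we choose the blocks such that the triple of places
of a test is in a box with probability of order `w / n` only: the blocks `A` and `B` are fixed, but the
last part of the list is shifted by a random number of places. So the tests of the first round hit
few boxes, on average. The numbers are multiplied by `8 S` so that the constants do not matter, and so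
that `x_c` can be changed by `1` in order to destroy the solution.
-/

set_option autoImplicit false

namespace Pool.Agent.Results.MP_13bec0_lc.TwoRounds

open Pool.Agent.K4H88.Ter Pool.Agent.K4H88.Rounds Pool.Agent.H72.TR

theorem lower3_holds : LOWER3 :=
  lower3 (Pool.Agent.H81.TR.second3 Pool.Agent.H83.TR.inst3) Pool.Agent.H23.TR.blocks
    Pool.Agent.H85.TR.hits3

theorem three_holds : THREE :=
  three Pool.Agent.H76.TR.minimax Pool.Agent.H83.TR.learn Pool.Agent.H11.TR.pats
    Pool.Agent.H85.TR.tree3 Pool.Agent.H81.TR.rows1 rows2 inv

theorem five_holds : FIVE :=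
  five Pool.Agent.H76.TR.minimax Pool.Agent.H83.TR.learn5 Pool.Agent.H11.TR.pats
    Pool.Agent.H85.TR.tree5 Pool.Agent.H81.TR.rows5a Pool.Agent.H81.TR.rows5b rows5c
    Pool.Agent.H11.TR.chains Pool.Agent.H11.TR.pow6 inv

open Classical in
/-- (1) In `r` rounds, expected `34 r n ^ (2 + 2 / (3 ^ r - 1))` tests of the forms `x_i + x_j - x_k`,
`x_i - x_j` suffice. (2) In three rounds, expected `20 n ^ 2 (⌊log₂ n⌋ + 1)` such tests suffice.
(3) In five rounds, expected `100000 n ^ 2` such tests suffice. (4) Two rounds need order
`n ^ (9 / 4)` tests with at most three terms, even for trees with errors, sorted lists, and small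
numbers. (5) The same for arbitrary constants in the tests. (6) The tests of (1), (2), (3) are tests
with at most three terms. -/
theorem result :
    (∀ n r : ℕ, 1 ≤ n → 1 ≤ r →
      ∃ (Ω : Type) (_ : Fintype Ω) (μ : Ω → ℝ) (F : Ω → RTree n r),
        (∀ ω, 0 ≤ μ ω) ∧ ∑ ω, μ ω = 1 ∧
        (∀ ω, Tests SumTest (fun b => b = 0) (F ω)) ∧
        (∀ ω, ∀ x : Fin n → ℤ, (F ω).eval x = true ↔ HasSum3 x) ∧
        ∀ x : Fin n → ℤ, Function.Injective x →
          ∑ ω, μ ω * (F ω).cost x ≤ 34 * r * (n : ℝ) ^ (2 + 2 / ((3 : ℝ) ^ r - 1))) ∧
    (∀ n : ℕ, 1 ≤ n → ∃ (Ω : Type) (_ : Fintype Ω) (μ : Ω → ℝ) (F : Ω → RTree n 3),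
      (∀ ω, 0 ≤ μ ω) ∧ ∑ ω, μ ω = 1 ∧
      (∀ ω, Tests SumTest (fun b => b = 0) (F ω)) ∧
      (∀ ω, ∀ x : Fin n → ℤ, Function.Injective x → ((F ω).eval x = true ↔ HasSum3 x)) ∧
      ∀ x : Fin n → ℤ, Function.Injective x →
        ∑ ω, μ ω * (F ω).cost x ≤ 20 * (n : ℝ) ^ 2 * (Nat.log 2 n + 1)) ∧
    (∀ n : ℕ, 1 ≤ n → ∃ (Ω : Type) (_ : Fintype Ω) (μ : Ω → ℝ) (F : Ω → RTree n 5),
      (∀ ω, 0 ≤ μ ω) ∧ ∑ ω, μ ω = 1 ∧
      (∀ ω, Tests SumTest (fun b => b = 0) (F ω)) ∧
      (∀ ω, ∀ x : Fin n → ℤ, Function.Injective x → ((F ω).eval x = true ↔ HasSum3 x)) ∧
      ∀ x : Fin n → ℤ, Function.Injective x →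
        ∑ ω, μ ω * (F ω).cost x ≤ 100000 * (n : ℝ) ^ 2) ∧
    (∀ n S : ℕ, 5 ≤ n → 1 ≤ S → ∀ (Ω : Type) [Fintype Ω] (μ : Ω → ℝ), (∀ ω, 0 ≤ μ ω) →
      ∑ ω, μ ω = 1 → ∀ (F : Ω → RTree n 2) (T η : ℝ), η ≤ 1 / 2 →
        (∀ ω, Tests ThreeTerms (fun b => |b| < S) (F ω)) →
        (∀ x : Fin n → ℤ, StrictMono x → (∀ p, 1 ≤ x p ∧ x p ≤ 2000 * S * n ^ 2) →
          ∑ ω, μ ω * (if ((F ω).eval x = true ↔ HasSum3 x) then 0 else 1) ≤ η) →
        (∀ x : Fin n → ℤ, StrictMono x → (∀ p, 1 ≤ x p ∧ x p ≤ 2000 * S * n ^ 2) →
          ¬ HasSum3 x → ∑ ω, μ ω * (F ω).cost x ≤ T) →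
        (1 - 2 * η) * (n : ℝ) ^ (9 / 4 : ℝ) ≤ 300 * T) ∧
    (∀ n : ℕ, 5 ≤ n → ∀ (Ω : Type) [Fintype Ω] (μ : Ω → ℝ), (∀ ω, 0 ≤ μ ω) → ∑ ω, μ ω = 1 →
      ∀ (F : Ω → RTree n 2) (T η : ℝ), η ≤ 1 / 2 →
        (∀ ω, Tests ThreeTerms (fun _ => True) (F ω)) →
        (∀ x : Fin n → ℤ, StrictMono x →
          ∑ ω, μ ω * (if ((F ω).eval x = true ↔ HasSum3 x) then 0 else 1) ≤ η) →
        (∀ x : Fin n → ℤ, StrictMono x → ¬ HasSum3 x → ∑ ω, μ ω * (F ω).cost x ≤ T) →
        (1 - 2 * η) * (n : ℝ) ^ (9 / 4 : ℝ) ≤ 300 * T) ∧
    ∀ (n : ℕ) (c : Fin n → ℝ), SumTest c → ThreeTerms c :=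
  ⟨fun n r hn hr => upperR (upper tree count prob choice) n r hn hr,
    fun n hn => three_holds n hn,
    fun n hn => five_holds n hn,
    fun n S hn hS Ω _ μ h1 h2 F T η hη h3 h4 h5 =>
      lowerS3 lower3_holds Pool.Agent.H81.TR.num3 n S hn hS Ω μ h1 h2 F T η hη h3 h4 h5,
    fun n hn Ω _ μ h1 h2 F T η hη h3 h4 h5 =>
      lowerA3 lower3_holds Pool.Agent.H81.TR.num3 n hn Ω μ h1 h2 F T η hη h3 h4 h5,
    fun _ _ h => h.three⟩

end Pool.Agent.Results.MP_13bec0_lc.TwoRounds
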